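import Mathlib

/-!
# A Lie algebra without non-trivial transposed Poisson structures whose indecomposable one-dimensional
central extension has one
-/

set_option autoImplicit false
set_option linter.all false

namespace Pool.Agent.Results.MP_d69fce_al.CentralExtension

section defs

variable {A : Type} [AddCommGroup A] [Module ℂ A]

/-- The bilinear map `b` is a Lie bracket on `A`. -/
def IsLie (b : A →ₗ[ℂ] A →ₗ[ℂ] A) : Prop :=
  (∀ x, b x x = 0) ∧ ∀ x y z, b x (b y z) + b y (b z x) + b z (b x y) = 0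

/-- The product `m` is a transposed Poisson structure on the Lie algebra `(A, b)`. -/
def IsTP (b m : A →ₗ[ℂ] A →ₗ[ℂ] A) : Prop :=
  (∀ x y, m x y = m y x) ∧ (∀ x y z, m (m x y) z = m x (m y z)) ∧
    ∀ x y z, (2 : ℂ) • m z (b x y) = b (m z x) y + b x (m z y)

/-- `φ` is a `1/2`-derivation of `(A, b)`. -/
def IsHalfDer (b : A →ₗ[ℂ] A →ₗ[ℂ] A) (φ : A →ₗ[ℂ] A) : Prop :=
  ∀ x y, φ (b x y) = (1 / 2 : ℂ) • (b (φ x) y + b x (φ y))

/-- `ω` is a 2-cocycle on `(A, b)` with values in `ℂ`. -/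
def IsCocycle (b : A →ₗ[ℂ] A →ₗ[ℂ] A) (ω : A →ₗ[ℂ] A →ₗ[ℂ] ℂ) : Prop :=
  (∀ x, ω x x = 0) ∧ ∀ x y z, ω x (b y z) + ω y (b z x) + ω z (b x y) = 0

/-- `ω` is a coboundary. -/
def IsCoboundary (b : A →ₗ[ℂ] A →ₗ[ℂ] A) (ω : A →ₗ[ℂ] A →ₗ[ℂ] ℂ) : Prop :=
  ∃ f : A →ₗ[ℂ] ℂ, ∀ x y, ω x y = f (b x y)

/-- The bracket of the central extension `A ⊕ ℂ c`. -/
def extBr (b : A →ₗ[ℂ] A →ₗ[ℂ] A) (ω : A →ₗ[ℂ] A →ₗ[ℂ] ℂ) :
    (A × ℂ) →ₗ[ℂ] (A × ℂ) →ₗ[ℂ] (A × ℂ) :=
  LinearMap.mk₂ ℂ (fun x y => (b x.1 y.1, ω x.1 y.1)) (by intros; simp) (by intros; simp)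
    (by intros; simp) (by intros; simp)

end defs

/-! ### The example -/

open Matrix

/-- The space `gl_2 ⊕ V ⊕ V^*`. -/
abbrev LL : Type := Matrix (Fin 2) (Fin 2) ℂ × (Fin 2 → ℂ) × (Fin 2 → ℂ)

/-- The bracket of `gl_2 ⋉ (V ⊕ V^*)`. -/
def bb : LL →ₗ[ℂ] LL →ₗ[ℂ] LL :=
  LinearMap.mk₂ ℂ (fun x y => (x.1 * y.1 - y.1 * x.1, x.1 *ᵥ y.2.1 - y.1 *ᵥ x.2.1,
      x.2.2 ᵥ* y.1 - y.2.2 ᵥ* x.1))
    (by
      intro x x' y
      refine Prod.ext ?_ (Prod.ext ?_ ?_) <;>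
        simp only [Prod.fst_add, Prod.snd_add, add_mul, mul_add, add_mulVec, mulVec_add, add_vecMul,
          vecMul_add] <;> abel)
    (by
      intro c x y
      refine Prod.ext ?_ (Prod.ext ?_ ?_) <;>
        simp only [Prod.smul_fst, Prod.smul_snd, smul_mul_assoc, mul_smul_comm, smul_mulVec,
          mulVec_smul, smul_vecMul, vecMul_smul, smul_sub])
    (by
      intro x x' y
      refine Prod.ext ?_ (Prod.ext ?_ ?_) <;>
        simp only [Prod.fst_add, Prod.snd_add, add_mul, mul_add, add_mulVec, mulVec_add, add_vecMul,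
          vecMul_add] <;> abel)
    (by
      intro c x y
      refine Prod.ext ?_ (Prod.ext ?_ ?_) <;>
        simp only [Prod.smul_fst, Prod.smul_snd, smul_mul_assoc, mul_smul_comm, smul_mulVec,
          mulVec_smul, smul_vecMul, vecMul_smul, smul_sub])

/-- The cocycle. -/
def ww : LL →ₗ[ℂ] LL →ₗ[ℂ] ℂ :=
  LinearMap.mk₂ ℂ (fun x y => x.2.2 ⬝ᵥ y.2.1 - y.2.2 ⬝ᵥ x.2.1)
    (by intro x x' y; simp only [Prod.snd_add, Prod.fst_add, add_dotProduct, dotProduct_add]; ring)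
    (by intro c x y; simp only [Prod.smul_fst, Prod.smul_snd, smul_dotProduct, dotProduct_smul,
      smul_sub])
    (by intro x x' y; simp only [Prod.snd_add, Prod.fst_add, add_dotProduct, dotProduct_add]; ring)
    (by intro c x y; simp only [Prod.smul_fst, Prod.smul_snd, smul_dotProduct, dotProduct_smul,
      smul_sub])

theorem bb_apply (x y : LL) : bb x y = (x.1 * y.1 - y.1 * x.1, x.1 *ᵥ y.2.1 - y.1 *ᵥ x.2.1,
      x.2.2 ᵥ* y.1 - y.2.2 ᵥ* x.1) := rfl

theorem ww_apply (x y : LL) : ww x y = x.2.2 ⬝ᵥ y.2.1 - y.2.2 ⬝ᵥ x.2.1 := rfl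

theorem isLie : IsLie bb := by
  constructor
  · intro x
    simp [bb_apply]
  · intro x y z
    simp only [bb_apply]
    refine Prod.ext ?_ (Prod.ext ?_ ?_)
    · simp only [Prod.fst_add, Prod.fst_zero]; noncomm_ring
    · simp only [Prod.fst_add, Prod.snd_add, Prod.fst_zero, Prod.snd_zero, mulVec_sub, sub_mulVec,
        mulVec_mulVec]; abel
    · simp only [Prod.fst_add, Prod.snd_add, Prod.fst_zero, Prod.snd_zero, vecMul_sub, sub_vecMul,
        vecMul_vecMul]; abel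

theorem isCocycle : IsCocycle bb ww := by
  constructor
  · intro x
    simp [ww_apply]
  · intro x y z
    simp only [bb_apply, ww_apply, dotProduct_sub, sub_dotProduct, dotProduct_mulVec]
    ring

theorem not_coboundary : ¬ IsCoboundary bb ww := by
  rintro ⟨f, hf⟩
  have h1 := hf (0, 0, ![1, 0]) (0, ![1, 0], 0)
  have h2 : bb (0, 0, ![1, 0]) (0, ![1, 0], 0) = 0 := by
    simp [bb_apply]
  rw [h2, map_zero, ww_apply] at h1
  simp [dotProduct, Fin.sum_univ_two] at h1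

theorem halfDer {φ : LL →ₗ[ℂ] LL} (h : IsHalfDer bb φ) : ∃ l : ℂ, ∀ x, φ x = l • x := by
  have c1 : ∀ x y : LL, (φ (bb x y)).1 = (1 / 2 : ℂ) • (((φ x).1 * y.1 - y.1 * (φ x).1) +
      (x.1 * (φ y).1 - (φ y).1 * x.1)) := fun x y => congrArg Prod.fst (h x y)
  have c2 : ∀ x y : LL, (φ (bb x y)).2.1 = (1 / 2 : ℂ) • (((φ x).1 *ᵥ y.2.1 - y.1 *ᵥ (φ x).2.1) +
      (x.1 *ᵥ (φ y).2.1 - (φ y).1 *ᵥ x.2.1)) := fun x y => congrArg (fun t => t.2.1) (h x y)
  have c3 : ∀ x y : LL, (φ (bb x y)).2.2 = (1 / 2 : ℂ) • (((φ x).2.2 ᵥ* y.1 - y.2.2 ᵥ* (φ x).1) +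
      (x.2.2 ᵥ* (φ y).1 - (φ y).2.2 ᵥ* x.1)) := fun x y => congrArg (fun t => t.2.2) (h x y)
  set e : LL := (1, 0, 0) with he
  have he1 : e.1 = 1 := rfl
  have he2 : e.2.1 = 0 := rfl
  have he3 : e.2.2 = 0 := rfl
  have hbe : ∀ y, bb e y = (0, y.2.1, - y.2.2) := by
    intro y
    rw [bb_apply, he]
    simp
  -- the image of the identity matrix
  have hM : ∀ M : Matrix (Fin 2) (Fin 2) ℂ, (φ e).1 * M = M * (φ e).1 ∧
      (φ (M, 0, 0)).2.1 = M *ᵥ (φ e).2.1 ∧ (φ (M, 0, 0)).2.2 = (φ e).2.2 ᵥ* M := by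
    intro M
    have h2 : bb e (M, 0, 0) = 0 := by rw [hbe]; simp
    have h31 := c1 e (M, 0, 0)
    have h32 := c2 e (M, 0, 0)
    have h33 := c3 e (M, 0, 0)
    rw [h2, map_zero] at h31 h32 h33
    simp only [he1, he2, he3, one_mul, mul_one, sub_self, add_zero, Prod.fst_zero, Prod.snd_zero,
      mulVec_zero, zero_sub, one_mulVec, zero_vecMul, vecMul_one, sub_zero] at h31 h32 h33
    have h31' := (smul_eq_zero.1 h31.symm).resolve_left (by norm_num)
    have h32' := (smul_eq_zero.1 h32.symm).resolve_left (by norm_num)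
    have h33' := (smul_eq_zero.1 h33.symm).resolve_left (by norm_num)
    refine ⟨sub_eq_zero.1 h31', ?_, ?_⟩
    · exact (neg_add_eq_zero.1 h32').symm
    · rw [add_neg_eq_zero] at h33'; exact h33'.symm
  have hN : (φ e).1 = (φ e).1 0 0 • (1 : Matrix (Fin 2) (Fin 2) ℂ) := by
    have h1 := (hM !![0, 1; 0, 0]).1
    have h2 := (hM !![0, 0; 1, 0]).1
    have h3 := congrFun (congrFun h1 0) 1
    have h4 := congrFun (congrFun h1 1) 1
    have h5 := congrFun (congrFun h2 0) 0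
    simp [Matrix.mul_apply, Fin.sum_univ_two] at h3 h4 h5
    ext i j
    fin_cases i <;> fin_cases j <;> simp [h3, h4, h5]
  set l := (φ e).1 0 0 with hl
  have hv : ∀ v, φ (0, v, 0) = (0, l • v, 0) := by
    intro v
    have h2 : bb e (0, v, 0) = (0, v, 0) := by rw [hbe]; simp
    have h31 := c1 e (0, v, 0)
    have h32 := c2 e (0, v, 0)
    have h33 := c3 e (0, v, 0)
    rw [h2] at h31 h32 h33
    simp only [he1, he2, he3, hN, one_mul, mul_one, sub_self, mul_zero, zero_mul, smul_zero,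
      add_zero, mulVec_zero, zero_mulVec, one_mulVec, zero_vecMul, vecMul_zero, vecMul_one, sub_zero,
      zero_sub, smul_mulVec, zero_add] at h31 h32 h33
    refine Prod.ext h31 (Prod.ext ?_ ?_)
    · have h4 : (2 : ℂ) • (φ (0, v, 0)).2.1 = l • v + (φ (0, v, 0)).2.1 := by
        nth_rewrite 1 [h32]
        module
      have h5 : (φ (0, v, 0)).2.1 = (2 : ℂ) • (φ (0, v, 0)).2.1 - (φ (0, v, 0)).2.1 := by module
      rw [h5, h4]
      simp
    · have h4 : (3 : ℂ) • (φ (0, v, 0)).2.2 = 0 := by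
        have : (3 : ℂ) • (φ (0, v, 0)).2.2 = (2 : ℂ) • (φ (0, v, 0)).2.2 + (φ (0, v, 0)).2.2 := by
          module
        rw [this]
        nth_rewrite 1 [h33]
        module
      exact (smul_eq_zero.1 h4).resolve_left (by norm_num)
  have hw : ∀ w, φ (0, 0, w) = (0, 0, l • w) := by
    intro w
    have h2 : bb e (0, 0, w) = - (0, 0, w) := by rw [hbe]; simp
    have h31 := c1 e (0, 0, w)
    have h32 := c2 e (0, 0, w)
    have h33 := c3 e (0, 0, w)
    rw [h2, map_neg] at h31 h32 h33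
    simp only [he1, he2, he3, hN, one_mul, mul_one, sub_self, mul_zero, zero_mul, smul_zero,
      add_zero, mulVec_zero, zero_mulVec, one_mulVec, zero_vecMul, vecMul_zero, vecMul_one, sub_zero,
      zero_sub, vecMul_smul, zero_add, Prod.fst_neg, Prod.snd_neg] at h31 h32 h33
    refine Prod.ext (neg_eq_zero.1 h31) (Prod.ext ?_ ?_)
    · have h4 : (3 : ℂ) • (φ (0, 0, w)).2.1 = 0 := by
        have : (3 : ℂ) • (φ (0, 0, w)).2.1 = -((2 : ℂ) • (-(φ (0, 0, w)).2.1)) +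
          (φ (0, 0, w)).2.1 := by module
        rw [this, h32]
        module
      exact (smul_eq_zero.1 h4).resolve_left (by norm_num)
    · have h5 : (φ (0, 0, w)).2.2 = -((2 : ℂ) • (-(φ (0, 0, w)).2.2)) - (φ (0, 0, w)).2.2 := by module
      rw [h5, h33]
      module
  -- the images of matrices
  have hM1 : ∀ M : Matrix (Fin 2) (Fin 2) ℂ, (φ (M, 0, 0)).1 = l • M := by
    intro M
    have h6 : ∀ v, (φ (M, 0, 0)).1 *ᵥ v = (l • M) *ᵥ v := by
      intro v
      have h2 : bb (M, 0, 0) (0, v, 0) = (0, M *ᵥ v, 0) := by rw [bb_apply]; simp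
      have h32 := c2 (M, 0, 0) (0, v, 0)
      rw [h2, hv, hv] at h32
      simp only [zero_mulVec, sub_zero, mulVec_smul] at h32
      have h7 : (φ (M, 0, 0)).1 *ᵥ v = (2 : ℂ) • ((1 / 2 : ℂ) • ((φ (M, 0, 0)).1 *ᵥ v + l • M *ᵥ v))
          - l • M *ᵥ v := by module
      rw [← h32] at h7
      rw [h7, smul_mulVec]; module
    ext i j
    have h8 := congrFun (h6 (Pi.single j 1)) i
    simpa using h8
  have hcomm : ∀ M M' : Matrix (Fin 2) (Fin 2) ℂ, (M * M' - M' * M) *ᵥ (φ e).2.1 = 0 ∧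
      (φ e).2.2 ᵥ* (M * M' - M' * M) = 0 := by
    intro M M'
    have h2 : bb (M, 0, 0) (M', 0, 0) = (M * M' - M' * M, 0, 0) := by rw [bb_apply]; simp
    have h32 := c2 (M, 0, 0) (M', 0, 0)
    have h33 := c3 (M, 0, 0) (M', 0, 0)
    rw [h2, (hM M).2.1, (hM M').2.1, (hM (M * M' - M' * M)).2.1] at h32
    rw [h2, (hM M).2.2, (hM M').2.2, (hM (M * M' - M' * M)).2.2] at h33
    simp only [mulVec_zero, zero_vecMul, sub_mulVec, vecMul_sub, mulVec_mulVec, vecMul_vecMul] at h32 h33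
    constructor
    · rw [sub_mulVec]
      have h7 : M' * M = M' * M := rfl
      generalize (M * M') *ᵥ (φ e).2.1 = a at h32 ⊢
      generalize (M' * M) *ᵥ (φ e).2.1 = b at h32 ⊢
      have h9 : a - b = (2 : ℂ) • (a - b) - (2 : ℂ) • ((1 / 2 : ℂ) • (0 - b + (a - 0))) := by module
      rw [← h32] at h9
      rw [h9]; module
    · rw [vecMul_sub]
      generalize (φ e).2.2 ᵥ* (M * M') = a at h33 ⊢
      generalize (φ e).2.2 ᵥ* (M' * M) = b at h33 ⊢
      have h9 : a - b = (2 : ℂ) • (a - b) - (2 : ℂ) • ((1 / 2 : ℂ) • (a - 0 + (0 - b))) := by module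
      rw [← h33] at h9
      rw [h9]; module
  have hu : (φ e).2.1 = 0 := by
    have h1 := (hcomm !![1, 0; 0, 0] !![0, 1; 0, 0]).1
    have h2 := (hcomm !![0, 0; 0, 1] !![0, 0; 1, 0]).1
    have h3 := congrFun h1 0
    have h4 := congrFun h2 1
    simp [mulVec, dotProduct, Fin.sum_univ_two] at h3 h4
    ext i
    fin_cases i
    · exact h4
    · exact h3
  have hw0 : (φ e).2.2 = 0 := by
    have h1 := (hcomm !![1, 0; 0, 0] !![0, 1; 0, 0]).2
    have h2 := (hcomm !![0, 0; 0, 1] !![0, 0; 1, 0]).2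
    have h3 := congrFun h1 1
    have h4 := congrFun h2 0
    simp [vecMul, dotProduct, Fin.sum_univ_two] at h3 h4
    ext i
    fin_cases i
    · exact h3
    · exact h4
  refine ⟨l, fun x => ?_⟩
  have hx : x = (x.1, 0, 0) + (0, x.2.1, 0) + (0, 0, x.2.2) := by
    refine Prod.ext ?_ (Prod.ext ?_ ?_) <;> simp
  have h9 : φ (x.1, 0, 0) = (l • x.1, 0, 0) :=
    Prod.ext (hM1 _) (Prod.ext (by rw [(hM _).2.1, hu, mulVec_zero])
      (by rw [(hM _).2.2, hw0, zero_vecMul]))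
  conv_lhs => rw [hx]
  rw [map_add, map_add, h9, hv, hw]
  refine Prod.ext ?_ (Prod.ext ?_ ?_) <;> simp

theorem tp_trivial {m : LL →ₗ[ℂ] LL →ₗ[ℂ] LL} (h : IsTP bb m) : m = 0 := by
  obtain ⟨h1, -, h3⟩ := h
  have h4 : ∀ z, ∃ l : ℂ, ∀ x, m z x = l • x := by
    intro z
    apply halfDer
    intro x y
    rw [← h3 x y z, smul_smul]
    norm_num
  choose l hl using h4
  have h5 : ∀ z, l z = 0 := by
    intro z
    have e1 : l z • ((0, ![1, 0], 0) : LL) = l (0, ![1, 0], 0) • z := by rw [← hl, ← hl, h1]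
    have e2 : l z • ((0, ![0, 1], 0) : LL) = l (0, ![0, 1], 0) • z := by rw [← hl, ← hl, h1]
    have f1 := congrFun (congrArg (fun t => t.2.1) e1) 0
    have f2 := congrFun (congrArg (fun t => t.2.1) e1) 1
    have f4 := congrFun (congrArg (fun t => t.2.1) e2) 1
    simp only [Prod.smul_snd, Prod.smul_fst, Pi.smul_apply, smul_eq_mul, cons_val_zero,
      cons_val_one, mul_one, mul_zero] at f1 f2 f4
    have : l z * l z = 0 := by
      calc l z * l z = (l (0, ![1, 0], 0) * z.2.1 1) * (l (0, ![0, 1], 0) * z.2.1 0) := by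
            nth_rewrite 1 [f1]
            nth_rewrite 1 [f4]
            ring
        _ = 0 := by rw [← f2, zero_mul]
    exact mul_self_eq_zero.1 this
  apply LinearMap.ext
  intro z
  apply LinearMap.ext
  intro x
  rw [hl, h5, zero_smul]
  rfl

/-- The transposed Poisson product on the extension. -/
def mm : (LL × ℂ) →ₗ[ℂ] (LL × ℂ) →ₗ[ℂ] (LL × ℂ) :=
  LinearMap.mk₂ ℂ (fun x y => (0, x.1.1.trace * y.1.1.trace))
    (by intros; simp [add_mul]) (by intros; simp [mul_assoc]) (by intros; simp [mul_add])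
    (by intros; simp [mul_left_comm])

theorem mm_apply (x y : LL × ℂ) : mm x y = (0, x.1.1.trace * y.1.1.trace) := rfl

theorem ext_apply (x y : LL × ℂ) : extBr bb ww x y = (bb x.1 y.1, ww x.1 y.1) := rfl

theorem trace_bb (x y : LL) : (bb x y).1.trace = 0 := by
  rw [bb_apply]
  change (x.1 * y.1 - y.1 * x.1).trace = 0
  rw [trace_sub, trace_mul_comm, sub_self]

theorem isTP : IsTP (extBr bb ww) mm := by
  refine ⟨fun x y => ?_, fun x y z => ?_, fun x y z => ?_⟩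
  · rw [mm_apply, mm_apply, mul_comm]
  · simp [mm_apply]
  · simp only [mm_apply, ext_apply, trace_bb, mul_zero, map_zero, LinearMap.zero_apply]
    simp

/-- The half-derivation of the extension. -/
def hd : (LL × ℂ) →ₗ[ℂ] (LL × ℂ) where
  toFun x := (0, x.1.1.trace)
  map_add' := by intros; simp
  map_smul' := by intros; simp

/-- The main result. -/
theorem result : ∃ (A : Type) (_ : AddCommGroup A) (_ : Module ℂ A) (b : A →ₗ[ℂ] A →ₗ[ℂ] A)
    (ω : A →ₗ[ℂ] A →ₗ[ℂ] ℂ), IsLie b ∧ IsCocycle b ω ∧ ¬ IsCoboundary b ω ∧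
      (∀ m, IsTP b m → m = 0) ∧ (∃ m, IsTP (extBr b ω) m ∧ m ≠ 0) ∧
      (∀ φ, IsHalfDer b φ → ∃ l : ℂ, ∀ x, φ x = l • x) ∧
      (∃ φ, IsHalfDer (extBr b ω) φ ∧ ¬ ∃ l : ℂ, ∀ x, φ x = l • x) := by
  refine ⟨LL, inferInstance, inferInstance, bb, ww, isLie, isCocycle, not_coboundary,
    fun m => tp_trivial, ⟨mm, isTP, fun h => ?_⟩, fun φ => halfDer, ⟨hd, fun x y => ?_, ?_⟩⟩
  · have h1 : mm ((1, 0, 0), 0) ((1, 0, 0), 0) = 0 := by rw [h]; rfl
    have h2 := congrArg Prod.snd h1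
    simp [mm_apply] at h2
  · change (0, (bb x.1 y.1).1.trace) = (1 / 2 : ℂ) • (extBr bb ww (0, _) y + extBr bb ww x (0, _))
    rw [trace_bb, ext_apply, ext_apply]
    simp
  · rintro ⟨l, hl⟩
    have h1 := hl ((1, 0, 0), 0)
    have h2 := congrArg Prod.snd h1
    change (1 : Matrix (Fin 2) (Fin 2) ℂ).trace = l * 0 at h2
    simp at h2

end Pool.Agent.Results.MP_d69fce_al.CentralExtension
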